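import Mathlib

set_option autoImplicit false

namespace Pool.Agent.Results.MP_6ca30a_an.NoUniversalUltrafilter

open Filter Topology Set Cardinal

/-- A filter on `ℕ` is free if it is proper and contains the Frechet filter. -/
def Free (F : Filter ℕ) : Prop := F.NeBot ∧ F ≤ cofinite

/-- The sequence `x` is Cauchy over the filter `F`. -/
def CauchyOver {X : Type} [AddCommGroup X] [TopologicalSpace X] (F : Filter ℕ) (x : ℕ → X) :
    Prop :=
  ∀ U ∈ 𝓝 (0 : X), ∃ B ∈ F, ∀ a ∈ B, ∀ b ∈ B, x a - x b ∈ U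

/-- The sequence `x` converges to `y` over the filter `F`. -/
def ConvergesOver {X : Type} [TopologicalSpace X] (F : Filter ℕ) (x : ℕ → X) (y : X) : Prop :=
  ∀ V ∈ 𝓝 y, ∃ A ∈ F, ∀ n ∈ A, x n ∈ V

/-- `X` is complete over the filter `F`. -/
def CompleteOver (F : Filter ℕ) (X : Type) [AddCommGroup X] [TopologicalSpace X] : Prop :=
  ∀ x : ℕ → X, CauchyOver F x → ∃ y, ConvergesOver F x y

/-- `X` is complete over every free filter on `ℕ`. -/
def CountablyComplete (X : Type) [AddCommGroup X] [TopologicalSpace X] : Prop :=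
  ∀ F : Filter ℕ, Free F → CompleteOver F X

/-- The free ultrafilter `𝒰` is universal for topological vector spaces over `𝕂`: every Hausdorff
topological vector space that is complete over `𝒰` is countably complete. -/
def Universal (𝕂 : Type) [RCLike 𝕂] (𝒰 : Ultrafilter ℕ) : Prop :=
  ∀ (X : Type) [AddCommGroup X] [Module 𝕂 X] [TopologicalSpace X] [IsTopologicalAddGroup X]
    [ContinuousSMul 𝕂 X] [T2Space X], CompleteOver (𝒰 : Filter ℕ) X → CountablyComplete X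

lemma convergesOver_iff {X : Type} [TopologicalSpace X] (F : Filter ℕ) (x : ℕ → X) (y : X) :
    ConvergesOver F x y ↔ Tendsto x F (𝓝 y) := by
  constructor
  · intro h V hV
    obtain ⟨A, hA, hAV⟩ := h V hV
    exact Filter.mem_map.2 (mem_of_superset hA hAV)
  · intro h V hV
    exact ⟨x ⁻¹' V, h hV, fun n hn => hn⟩

/-- the Cantor set -/
abbrev S : Type := ℕ → Bool

section seq

/-- finite-level patterns -/
abbrev Pat : Type := Σ N : ℕ, ((Fin N → Bool) → Bool)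

variable (𝕂 : Type) [RCLike 𝕂]

/-- the function given by a pattern -/
def fn (p : Pat) : S → 𝕂 := fun s => if p.2 (fun i => s i) then 1 else 0

/-- an enumeration of the patterns -/
noncomputable def en : ℕ → Pat := (exists_surjective_nat Pat).choose

lemma en_surj : Function.Surjective en := (exists_surjective_nat Pat).choose_spec

/-- the sequence -/
noncomputable def xs (n : ℕ) : S → 𝕂 := fn 𝕂 (en n)

lemma exists_level (F : Finset S) : ∃ N₀ : ℕ, ∀ N, N₀ ≤ N →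
    ∀ s ∈ F, ∀ t ∈ F, (∀ i : Fin N, s i = t i) → s = t := by
  classical
  have h : ∀ p : S × S, ∃ N : ℕ, p.1 ≠ p.2 → ∃ i < N, p.1 i ≠ p.2 i := by
    intro p
    by_cases hp : p.1 = p.2
    · exact ⟨0, fun h => absurd hp h⟩
    · obtain ⟨i, hi⟩ := Function.ne_iff.1 hp
      exact ⟨i + 1, fun _ => ⟨i, Nat.lt_succ_self i, hi⟩⟩
  choose g hg using h
  refine ⟨(F ×ˢ F).sup g, fun N hN s hs t ht hst => ?_⟩
  by_contra hne
  obtain ⟨i, hi, hne'⟩ := hg (s, t) hne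
  have hle : g (s, t) ≤ N :=
    (Finset.le_sup (f := g) (Finset.mk_mem_product hs ht)).trans hN
  exact hne' (hst ⟨i, hi.trans_le hle⟩)

lemma infinite_match (F : Finset S) (z : S → Bool) :
    {n : ℕ | ∀ s ∈ F, xs 𝕂 n s = if z s then 1 else 0}.Infinite := by
  classical
  obtain ⟨N₀, hN₀⟩ := exists_level F
  have h : ∀ k : ℕ, ∃ n, (en n).1 = N₀ + k ∧ ∀ s ∈ F, xs 𝕂 n s = if z s then 1 else 0 := by
    intro k
    obtain ⟨n, hn⟩ := en_surj ⟨N₀ + k, fun w => decide (∃ s ∈ F, (∀ i : Fin (N₀ + k), s i = w i) ∧ z s = true)⟩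
    refine ⟨n, by rw [hn], fun s hs => ?_⟩
    unfold xs fn
    rw [hn]
    have e : (∃ s' ∈ F, (∀ i : Fin (N₀ + k), s' i = s i) ∧ z s' = true) ↔ z s = true := by
      constructor
      · rintro ⟨s', hs', h1, h2⟩
        have := hN₀ (N₀ + k) (Nat.le_add_right _ _) s' hs' s hs h1
        rwa [this] at h2
      · intro h
        exact ⟨s, hs, fun _ => rfl, h⟩
    by_cases hz : z s = true
    · simp only [hz, if_true]
      rw [if_pos]
      exact decide_eq_true (e.2 hz)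
    · rw [if_neg hz, if_neg]
      intro h
      exact hz (e.1 (of_decide_eq_true h))
  choose n hn1 hn2 using h
  refine Set.infinite_of_injective_forall_mem (f := n) ?_ hn2
  intro a b hab
  have h1 := hn1 a
  rw [hab, hn1 b] at h1
  omega

lemma exists_ultra (z : S → Bool) : ∃ 𝒱 : Ultrafilter ℕ, Free (𝒱 : Filter ℕ) ∧
    Tendsto (xs 𝕂) 𝒱 (𝓝 (fun s => if z s then 1 else 0)) := by
  classical
  set L : Filter ℕ := comap (xs 𝕂) (𝓝 (fun s => if z s then (1 : 𝕂) else 0)) ⊓ cofinite with hL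
  have hne : L.NeBot := by
    rw [hL, Filter.inf_neBot_iff]
    intro A hA B hB
    obtain ⟨W, hW, hWA⟩ := mem_comap.1 hA
    rw [nhds_pi, Filter.mem_pi] at hW
    obtain ⟨I, hI, t, ht, hIt⟩ := hW
    have hinf := infinite_match 𝕂 hI.toFinset z
    have hBfin : (Bᶜ).Finite := mem_cofinite.1 hB
    obtain ⟨n, hn, hnB⟩ := (hinf.sdiff hBfin).nonempty
    refine ⟨n, hWA (hIt fun s hs => ?_), not_not.1 hnB⟩
    rw [hn s (hI.mem_toFinset.2 hs)]
    exact mem_of_mem_nhds (ht s)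
  refine ⟨Ultrafilter.of L, ⟨inferInstance, (Ultrafilter.of_le L).trans inf_le_right⟩, ?_⟩
  exact tendsto_comap.mono_left ((Ultrafilter.of_le L).trans inf_le_left)

end seq

section closure

variable (𝕂 : Type) [RCLike 𝕂] (F : Filter ℕ)

/-- the shapes of the terms -/
abbrev Sh : Type := ℕ ⊕ (𝕂 ⊕ Unit)

/-- the arities -/
def ar : Sh 𝕂 → Type
  | Sum.inl _ => Empty
  | Sum.inr _ => ℕ

/-- the terms -/
abbrev Tm : Type := WType (ar 𝕂)

/-- one step of the evaluation -/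
noncomputable def step : (Σ a : Sh 𝕂, ar 𝕂 a → (S → 𝕂)) → (S → 𝕂)
  | ⟨Sum.inl n, _⟩ => xs 𝕂 n
  | ⟨Sum.inr (Sum.inl c), t⟩ => c • t (0 : ℕ) + t (1 : ℕ)
  | ⟨Sum.inr (Sum.inr _), t⟩ => limUnder F (fun n : ℕ => t n)

/-- the evaluation -/
noncomputable def ev : Tm 𝕂 → (S → 𝕂) := WType.elim (S → 𝕂) (step 𝕂 F)

lemma ev_leaf (n : ℕ) (t) : ev 𝕂 F (WType.mk (Sum.inl n) t) = xs 𝕂 n := rfl

lemma ev_comb (c : 𝕂) (t : ℕ → Tm 𝕂) :
    ev 𝕂 F (WType.mk (Sum.inr (Sum.inl c)) t) = c • ev 𝕂 F (t 0) + ev 𝕂 F (t 1) := rfl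

lemma ev_lim (t : ℕ → Tm 𝕂) :
    ev 𝕂 F (WType.mk (Sum.inr (Sum.inr ())) t) = limUnder F (fun n => ev 𝕂 F (t n)) := rfl

lemma card_Tm : #(Tm 𝕂) ≤ 𝔠 := by
  apply WType.cardinalMk_le_of_le
  have h1 : ∀ a : Sh 𝕂, 𝔠 ^ #(ar 𝕂 a) ≤ 𝔠 := by
    rintro (n | a)
    · have : #(ar 𝕂 (Sum.inl n)) = 0 := Cardinal.mk_eq_zero_iff.2 (inferInstanceAs (IsEmpty Empty))
      rw [this, Cardinal.power_zero]
      exact Cardinal.one_lt_aleph0.le.trans Cardinal.aleph0_le_continuum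
    · have : #(ar 𝕂 (Sum.inr a)) = ℵ₀ := Cardinal.mk_nat
      rw [this, Cardinal.continuum_power_aleph0]
  have hK : #𝕂 ≤ 𝔠 := by
    have hinj : Function.Injective (fun z : 𝕂 => ((RCLike.re z, RCLike.im z) : ℝ × ℝ)) := by
      intro a b h
      simp only [Prod.mk.injEq] at h
      exact RCLike.ext h.1 h.2
    refine (Cardinal.mk_le_of_injective hinj).trans ?_
    rw [Cardinal.mk_prod, Cardinal.mk_real]
    simp
  have h2 : #(Sh 𝕂) ≤ 𝔠 := by
    rw [Cardinal.mk_sum, Cardinal.mk_sum]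
    simp only [Cardinal.lift_id, Cardinal.mk_nat, Cardinal.mk_unit]
    refine Cardinal.add_le_of_le Cardinal.aleph0_le_continuum Cardinal.aleph0_le_continuum ?_
    refine Cardinal.add_le_of_le Cardinal.aleph0_le_continuum hK ?_
    exact Cardinal.one_lt_aleph0.le.trans Cardinal.aleph0_le_continuum
  calc Cardinal.sum (fun a : Sh 𝕂 => 𝔠 ^ #(ar 𝕂 a)) ≤ Cardinal.sum (fun _ : Sh 𝕂 => 𝔠) :=
        Cardinal.sum_le_sum _ _ h1
    _ = #(Sh 𝕂) * 𝔠 := by simp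
    _ ≤ 𝔠 * 𝔠 := mul_le_mul' h2 le_rfl
    _ = 𝔠 := Cardinal.continuum_mul_self

/-- the space -/
noncomputable def Y : Submodule 𝕂 (S → 𝕂) where
  carrier := Set.range (ev 𝕂 F)
  add_mem' := by
    rintro _ _ ⟨a, rfl⟩ ⟨b, rfl⟩
    refine ⟨WType.mk (Sum.inr (Sum.inl 1)) (fun n : ℕ => if n = 0 then a else b), ?_⟩
    rw [ev_comb]
    simp
  zero_mem' := by
    let a : Tm 𝕂 := WType.mk (Sum.inl 0) (fun e => Empty.elim e)
    refine ⟨WType.mk (Sum.inr (Sum.inl (-1))) (fun _ : ℕ => a), ?_⟩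
    rw [ev_comb]
    simp
  smul_mem' := by
    rintro c _ ⟨a, rfl⟩
    let o : Tm 𝕂 := WType.mk (Sum.inl 0) (fun e => Empty.elim e)
    let z : Tm 𝕂 := WType.mk (Sum.inr (Sum.inl (-1))) (fun _ : ℕ => o)
    have hz : ev 𝕂 F z = 0 := by
      rw [ev_comb]; simp
    refine ⟨WType.mk (Sum.inr (Sum.inl c)) (fun n : ℕ => if n = 0 then a else z), ?_⟩
    rw [ev_comb]
    simp [hz]

lemma xs_mem (n : ℕ) : xs 𝕂 n ∈ Y 𝕂 F := ⟨WType.mk (Sum.inl n) (fun e => Empty.elim e), rfl⟩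

lemma lim_mem (hF : F.NeBot) (y : ℕ → (S → 𝕂)) (hy : ∀ n, y n ∈ Y 𝕂 F) (z : S → 𝕂)
    (h : Tendsto y F (𝓝 z)) : z ∈ Y 𝕂 F := by
  have hy' : ∀ n, ∃ t, ev 𝕂 F t = y n := hy
  choose t ht using hy'
  refine ⟨WType.mk (Sum.inr (Sum.inr ())) t, ?_⟩
  rw [ev_lim]
  have : (fun n => ev 𝕂 F (t n)) = y := funext ht
  rw [this]
  exact h.limUnder_eq

lemma card_Y : #(Y 𝕂 F : Set (S → 𝕂)) ≤ 𝔠 :=
  (Cardinal.mk_range_le (f := ev 𝕂 F)).trans (card_Tm 𝕂)

lemma exists_missing : ∃ z : S → Bool, (fun s => if z s then (1 : 𝕂) else 0) ∉ Y 𝕂 F := by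
  by_contra hcon
  push Not at hcon
  have hinj : Function.Injective
      (fun z : S → Bool => (⟨_, hcon z⟩ : (Y 𝕂 F : Set (S → 𝕂)))) := by
    intro z w h
    have h' := Subtype.ext_iff.1 h
    funext s
    have hs := congrFun h' s
    by_cases h1 : z s = true <;> by_cases h2 : w s = true <;> simp_all
  have h1 := (Cardinal.mk_le_of_injective hinj).trans (card_Y 𝕂 F)
  have h2 : #(S → Bool) = 2 ^ 𝔠 := by
    rw [← Cardinal.power_def]
    simp [S]
  rw [h2] at h1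
  exact absurd (Cardinal.cantor 𝔠) (not_lt.2 h1)

lemma complete (hF : Free F) : CompleteOver F (Y 𝕂 F) := by
  have := hF.1
  intro y hy
  have hc : Cauchy (map (fun n => (y n : S → 𝕂)) F) := by
    rw [cauchy_map_iff]
    refine ⟨hF.1, ?_⟩
    rw [uniformity_eq_comap_nhds_zero, tendsto_comap_iff]
    intro W hW
    have hW' : (Subtype.val : Y 𝕂 F → (S → 𝕂)) ⁻¹' W ∈ 𝓝 (0 : Y 𝕂 F) :=
      continuous_subtype_val.continuousAt.preimage_mem_nhds (by simpa using hW)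
    obtain ⟨B, hB, h⟩ := hy _ hW'
    refine Filter.mem_map.2 (mem_of_superset (prod_mem_prod hB hB) ?_)
    rintro ⟨a, b⟩ ⟨ha, hb⟩
    exact h b hb a ha
  obtain ⟨z, hz⟩ := CompleteSpace.complete hc
  have hz' : Tendsto (fun n => (y n : S → 𝕂)) F (𝓝 z) := hz
  have hmem := lim_mem 𝕂 F hF.1 _ (fun n => (y n).2) z hz'
  refine ⟨⟨z, hmem⟩, ?_⟩
  rw [convergesOver_iff, tendsto_subtype_rng]
  exact hz'

lemma incomplete : ∃ 𝒱 : Ultrafilter ℕ, Free (𝒱 : Filter ℕ) ∧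
    ¬ CompleteOver (𝒱 : Filter ℕ) (Y 𝕂 F) := by
  obtain ⟨z, hz⟩ := exists_missing 𝕂 F
  obtain ⟨𝒱, h𝒱, hlim⟩ := exists_ultra 𝕂 z
  refine ⟨𝒱, h𝒱, fun hcomp => ?_⟩
  obtain ⟨y, hy⟩ := hcomp (fun n => ⟨xs 𝕂 n, xs_mem 𝕂 F n⟩) (by
    intro W hW
    obtain ⟨W', hW', hsub⟩ := mem_nhds_subtype _ _ _ |>.1 hW
    have h1 : Tendsto (fun p : ℕ × ℕ => xs 𝕂 p.1 - xs 𝕂 p.2) ((𝒱 : Filter ℕ) ×ˢ (𝒱 : Filter ℕ))
        (𝓝 0) := by
      have g1 : Tendsto (fun p : ℕ × ℕ => xs 𝕂 p.1) ((𝒱 : Filter ℕ) ×ˢ (𝒱 : Filter ℕ))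
          (𝓝 (fun s => if z s then 1 else 0)) := hlim.comp tendsto_fst
      have g2 : Tendsto (fun p : ℕ × ℕ => xs 𝕂 p.2) ((𝒱 : Filter ℕ) ×ˢ (𝒱 : Filter ℕ))
          (𝓝 (fun s => if z s then 1 else 0)) := hlim.comp tendsto_snd
      have := g1.sub g2
      simpa using this
    have h2 := h1 (by simpa using hW')
    obtain ⟨B, hB, hBB⟩ := Filter.mem_prod_self_iff.1 h2
    refine ⟨B, hB, fun a ha b hb => hsub ?_⟩
    exact hBB (Set.mk_mem_prod ha hb))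
  rw [convergesOver_iff, tendsto_subtype_rng] at hy
  have := tendsto_nhds_unique hy hlim
  apply hz
  rw [← this]
  exact y.2

end closure

/-- No free ultrafilter is universal: for every free filter `F` on `ℕ` (in particular for every
free ultrafilter) there is a Hausdorff topological vector space that is complete over `F`, but not
over some free ultrafilter. -/
theorem result (𝕂 : Type) [RCLike 𝕂] :
    (∀ 𝒰 : Ultrafilter ℕ, Free (𝒰 : Filter ℕ) → ¬ Universal 𝕂 𝒰) ∧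
    ∀ F : Filter ℕ, Free F →
      ∃ (X : Type) (_ : AddCommGroup X) (_ : Module 𝕂 X) (_ : TopologicalSpace X),
        IsTopologicalAddGroup X ∧ ContinuousSMul 𝕂 X ∧ T2Space X ∧ CompleteOver F X ∧
        ∃ 𝒱 : Ultrafilter ℕ, Free (𝒱 : Filter ℕ) ∧ ¬ CompleteOver (𝒱 : Filter ℕ) X := by
  constructor
  · intro 𝒰 h𝒰 huniv
    obtain ⟨𝒱, h𝒱, hn⟩ := incomplete 𝕂 (𝒰 : Filter ℕ)
    exact hn (huniv (Y 𝕂 (𝒰 : Filter ℕ)) (complete 𝕂 _ h𝒰) 𝒱 h𝒱)
  · intro F hF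
    exact ⟨Y 𝕂 F, inferInstance, inferInstance, inferInstance, inferInstance, inferInstance,
      inferInstance, complete 𝕂 F hF, incomplete 𝕂 F⟩

end Pool.Agent.Results.MP_6ca30a_an.NoUniversalUltrafilter
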